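import Pool.Agent.Lib.MP_a3b3a7_nt.Final

/-!
Residue patterns of consecutive primes: no set of patterns carries too large a share.
-/

namespace Pool.Agent.Results.MP_a3b3a7_nt.Mass

open Pool.Agent.Lib.MP_a3b3a7_nt

theorem result : ∃ C : ℝ, ∀ q : ℕ, 0 < q → ∃ X : ℝ, ∀ x : ℝ, X ≤ x →
    ∀ A : Finset ((ZMod q)ˣ × (ZMod q)ˣ),
      ∑ s ∈ A, share q s.1 s.2 x ≤ C * √(A.card) / (q.totient : ℝ) :=
  ⟨40000, fun q hq =>
    have : NeZero q := ⟨hq.ne'⟩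
    Filter.eventually_atTop.1 (share_bounds.mono fun _ h => h.1)⟩

end Pool.Agent.Results.MP_a3b3a7_nt.Mass
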