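import Pool.Agent.Lib.MP_a3b3a7_nt.M.Fin

/-!
The Lemke Oliver-Soundararajan expansions for consecutive integers free of prime factors up to
`z`, counted below any `x` with `x ≥ z ^ ((log log z) ^ 4)`.
-/

namespace Pool.Agent.Results.MP_a3b3a7_nt.Rough

open Pool.Agent.Lib.MP_a3b3a7_nt.M Filter

theorem result : ∀ (r : ℕ → ℕ → ℕ) (N : ℕ → ℕ → ℕ) (L : ℕ → ℝ),
    (∀ z k, r z k = Nat.nth (fun n => n.Coprime (primorial z)) k) →
    (∀ z x, N z x = Nat.count (fun n => n.Coprime (primorial z)) x) →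
    (∀ z, L z = (primorial z : ℝ) / (Nat.totient (primorial z) : ℝ)) →
    Tendsto L atTop atTop ∧
    ∃ C : ℝ, ∀ q : ℕ, q.Prime → ∀ f : ℕ → ℕ → ZMod q → ZMod q → ℝ,
      (∀ z x a b, f z x a b = (((Finset.range (N z x)).filter
        (fun k => (r z k : ZMod q) = a ∧ (r z (k + 1) : ZMod q) = b)).card : ℝ) / (N z x : ℝ)) →
      ∃ Z : ℕ, ∀ z : ℕ, Z ≤ z → ∀ x : ℕ, (z : ℝ) ^ (Real.log (Real.log z) ^ 4) ≤ (x : ℝ) →
        (∀ a b : ZMod q, a ≠ 0 → b ≠ 0 → a ≠ b →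
          |f z x a b + f z x b a - 2 / ((Nat.totient q : ℝ) ^ 2) *
            (1 + Real.log (L z) / (2 * L z) - Real.log ((q : ℝ) / (2 * Real.pi)) / (2 * L z))| ≤
            C * L z ^ (-(6 / 5 : ℝ))) ∧
        (∀ a : ZMod q, a ≠ 0 →
          |f z x a a - 1 / ((Nat.totient q : ℝ) ^ 2) *
            (1 - ((Nat.totient q : ℝ) - 1) * Real.log (L z) / (2 * L z) +
              ((Nat.totient q : ℝ) - 1) * Real.log ((q : ℝ) / (2 * Real.pi)) / (2 * L z))| ≤
            C * L z ^ (-(6 / 5 : ℝ))) := by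
  intro r N L hr hN hL
  obtain rfl : L = LL := funext hL
  refine ⟨LL_tendsto, 67000, fun q hq f hf => ?_⟩
  have e : ∀ z x a b, f z x a b = share (primorial z) x q a b := fun z x a b => by
    simp only [hf, hr, hN, share]
  have q2 : (2 : ℝ) ≤ q := by exact_mod_cast hq.two_le
  have φ1 : (1 : ℝ) ≤ (q - 1) ^ 2 := one_le_pow₀ (by linarith)
  have φ0 : (q : ℝ) - 1 ≠ 0 := by linarith
  have key : ∀ X Y B : ℝ, |(q - 1) ^ 2 * X - Y| ≤ B → |X - 1 / (q - 1) ^ 2 * Y| ≤ B := by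
    intro X Y B h
    rw [show X - 1 / (q - 1) ^ 2 * Y = 1 / (q - 1) ^ 2 * ((q - 1) ^ 2 * X - Y) by field_simp]
    exact abs_mul_le (by
      rw [abs_of_nonneg (by positivity)]; exact div_le_one_of_le₀ φ1 (by positivity)) h
  refine eventually_atTop.1 ((main hq).mono fun z h x hx => ?_)
  obtain ⟨h1, h2⟩ := h x hx
  simp only [e, Nat.totient_prime hq, Nat.cast_pred hq.pos]
  refine ⟨fun a b ha hb hab => ?_, fun a ha => ?_⟩
  · have := h1 a b ha hb hab
    rw [← mul_add] at this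
    exact (le_of_eq (congrArg abs (by ring))).trans (key _ _ _ this)
  · exact (le_of_eq (congrArg abs (by ring))).trans (key _ _ _ (h2 a ha))

end Pool.Agent.Results.MP_a3b3a7_nt.Rough
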